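import Pool.Agent.Helper51K9.TI.Ind
import Pool.Agent.Helper78K9.DS.Rel

/-!
# Descent with Solomon's relation, for an abstract group
-/

set_option autoImplicit false
set_option linter.unusedSectionVars false

namespace Pool.Agent.Helper78K9.DR

open Matrix Polynomial Filter Topology Pool.Agent.R389 Pool.Agent.H541R3.ART Pool.Agent.Helper51K9.TI
  Pool.Agent.Helper78K9.DS

section
variable {Γ : Type} [Group Γ] {E' : Type} [Field E'] {r r' : Type} [Fintype r] [DecidableEq r]
  [Fintype r'] [DecidableEq r']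

/-- the tensor product of two representations -/
def tens (ρ : Γ →* Matrix r r E') (σ : Γ →* Matrix r' r' E') :
    Γ →* Matrix (r × r') (r × r') E' where
  toFun γ := kroneckerMap (· * ·) (ρ γ) (σ γ)
  map_one' := by
    rw [map_one, map_one]
    exact Matrix.one_kronecker_one
  map_mul' γ δ := by
    rw [map_mul, map_mul]
    exact Matrix.mul_kronecker_mul _ _ _ _

theorem trace_tens (ρ : Γ →* Matrix r r E') (σ : Γ →* Matrix r' r' E') (γ : Γ) :
    (tens ρ σ γ).trace = (ρ γ).trace * (σ γ).trace := trace_kronecker _ _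

/-- `ρ` is trivial on a normal subgroup of finite index -/
def FinImage (ρ : Γ →* Matrix r r E') : Prop :=
  ∃ N : Subgroup Γ, N.Normal ∧ Finite (Γ ⧸ N) ∧ ∀ γ ∈ N, ρ γ = 1

theorem finite_inf {N N' : Subgroup Γ} (h : Finite (Γ ⧸ N)) (h' : Finite (Γ ⧸ N')) :
    Finite (Γ ⧸ (N ⊓ N')) := by
  have h1 : N.FiniteIndex := Subgroup.finiteIndex_of_finite_quotient
  have h2 : N'.FiniteIndex := Subgroup.finiteIndex_of_finite_quotient
  have h3 : (N ⊓ N').FiniteIndex := inferInstance
  infer_instance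

theorem FinImage.common {ρ : Γ →* Matrix r r E'} {ρ' : Γ →* Matrix r' r' E'} (h : FinImage ρ)
    (h' : FinImage ρ') : ∃ N : Subgroup Γ, N.Normal ∧ Finite (Γ ⧸ N) ∧ (∀ γ ∈ N, ρ γ = 1) ∧
      ∀ γ ∈ N, ρ' γ = 1 := by
  obtain ⟨N, h1, h2, h3⟩ := h
  obtain ⟨N', h1', h2', h3'⟩ := h'
  exact ⟨N ⊓ N', Subgroup.normal_inf_normal N N', finite_inf h2 h2', fun γ hγ => h3 γ hγ.1,
    fun γ hγ => h3' γ hγ.2⟩

theorem FinImage.dsum {ρ : Γ →* Matrix r r E'} {ρ' : Γ →* Matrix r' r' E'} (h : FinImage ρ)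
    (h' : FinImage ρ') : FinImage (Helper51K9.TI.dsum ρ ρ') := by
  obtain ⟨N, h1, h2, h3, h4⟩ := h.common h'
  exact ⟨N, h1, h2, fun γ hγ => by rw [dsum_apply, h3 γ hγ, h4 γ hγ, fromBlocks_one]⟩

theorem FinImage.tens {ρ : Γ →* Matrix r r E'} {ρ' : Γ →* Matrix r' r' E'} (h : FinImage ρ)
    (h' : FinImage ρ') : FinImage (DR.tens ρ ρ') := by
  obtain ⟨N, h1, h2, h3, h4⟩ := h.common h'
  refine ⟨N, h1, h2, fun γ hγ => ?_⟩
  change kroneckerMap (· * ·) (ρ γ) (ρ' γ) = 1
  rw [h3 γ hγ, h4 γ hγ]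
  exact Matrix.one_kronecker_one

end

section
variable {Γ : Type} [Group Γ] {E : Type} [Field E] [NumberField E] {n : ℕ} {P : Type}
  (M : Realizations Γ E n P) {E' : Type} [Field E'] [NumberField E'] [Algebra E E'] {W z z' : ℂ}

/-- characters of representations which are good -/
def Nice (W z z' : ℂ) (f : Γ → E') : Prop := ∃ (k : Type) (_ : Fintype k) (_ : DecidableEq k)
  (s : Γ →* Matrix k k E'), FinImage s ∧ (∀ γ, (s γ).trace = f γ) ∧ Good M W z z' s

theorem Nice.add {f g : Γ → E'} (hf : Nice M W z z' f) (hg : Nice M W z z' g) :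
    Nice M W z z' (fun γ => f γ + g γ) := by
  obtain ⟨k, _, _, s, h1, h2, h3⟩ := hf
  obtain ⟨k', _, _, s', h1', h2', h3'⟩ := hg
  exact ⟨k ⊕ k', inferInstance, inferInstance, Helper51K9.TI.dsum s s', h1.dsum h1', fun γ => by
    rw [trace_dsum, h2, h2'], h3.dsum M h3'⟩

theorem Nice.list {X : Type} (f : X → Γ → E') : ∀ l : List X, l ≠ [] →
    (∀ V ∈ l, Nice M W z z' (f V)) → Nice M W z z' (fun γ => (l.map fun V => f V γ).sum)
  | [], h, _ => absurd rfl h
  | [V], _, h => by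
    simpa using h V (by simp)
  | V :: V' :: l, _, h => by
    have h1 := Nice.list f (V' :: l) (by simp) (fun U hU => h U (List.mem_cons_of_mem V hU))
    have h2 := (h V (by simp)).add M h1
    exact h2

/-- **Descent.** -/
theorem good_descent {G : Type} [Group G] [Finite G] {π : Γ →* G} (hπ : Function.Surjective π)
    (hW : W ≠ 0) {r : Type} [Fintype r] [DecidableEq r] (ρ : Γ →* Matrix r r E')
    (hρ : FinImage ρ)
    (h : ∀ V : Subgroup G, Hyper V → ∀ [Fintype (Γ ⧸ V.comap π)] [DecidableEq (Γ ⧸ V.comap π)],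
      Good M W z z' (tens ρ (induced (V.comap π) (1 : V.comap π →* E'ˣ)))) :
    Good M W z z' ρ := by
  classical
  have a2 : Algebra.IsAlgebraic E E' := by
    have : FiniteDimensional E E' := Module.Finite.of_restrictScalars_finite ℚ E E'
    exact Algebra.IsAlgebraic.of_finite E E'
  obtain ⟨lA, lB, hA, hB, hA0, hB0, hrel⟩ := solomon (G := G)
  let f : Subgroup G → Γ → E' := fun V γ => (ρ γ).trace * ind V (fun _ => (1 : E')) (π γ)
  have hker : Finite (Γ ⧸ π.ker) := by
    have e := QuotientGroup.quotientKerEquivRange π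
    exact Finite.of_equiv _ e.symm.toEquiv
  have hnice : ∀ V : Subgroup G, Hyper V → Nice M W z z' (f V) := by
    intro V hV
    have hle : π.ker ≤ V.comap π := by
      intro γ hγ
      rw [Subgroup.mem_comap, MonoidHom.mem_ker.1 hγ]
      exact V.one_mem
    have hfin : Finite (Γ ⧸ V.comap π) := by
      have h2 : π.ker.FiniteIndex := Subgroup.finiteIndex_of_finite_quotient
      have h3 : (V.comap π).FiniteIndex := Subgroup.finiteIndex_of_le hle
      infer_instance
    have i1 : Fintype (Γ ⧸ V.comap π) := Fintype.ofFinite _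
    refine ⟨r × (Γ ⧸ V.comap π), inferInstance, inferInstance,
      tens ρ (induced (V.comap π) (1 : V.comap π →* E'ˣ)), hρ.tens ?_, fun γ => ?_, h V hV⟩
    · exact ⟨π.ker, inferInstance, hker, fun γ hγ =>
        induced_trivial π.ker _ hle _ (fun _ _ => rfl) γ hγ⟩
    · rw [trace_tens]
      change _ * (inducedMatrix (V.comap π) (pull π V (1 : V →* E'ˣ)) γ).trace = _
      rw [trace_induced π hπ V 1 γ]
      simp [f]
  obtain ⟨kA, _, _, sA, a1, b1, c1⟩ := Nice.list M f lA hA0 fun V hV => hnice V (hA V hV)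
  obtain ⟨kB, _, _, sB, a2, b2, c2⟩ := Nice.list M f lB hB0 fun V hV => hnice V (hB V hV)
  have hsum : ∀ (C : List (Subgroup G)) (γ : Γ), (C.map fun V => f V γ).sum =
      (ρ γ).trace * (((C.map fun V => ind V (fun _ => (1 : ℚ)) (π γ)).sum : ℚ) : E') := by
    intro C γ
    induction C with
    | nil => simp
    | cons V C ih =>
      rw [List.map_cons, List.sum_cons, ih, List.map_cons, List.sum_cons, Rat.cast_add, mul_add]
      congr 1
      simp only [f]
      rw [ind_cast]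
  have hbase : ∀ γ, baseRep E' ρ γ = ρ γ := by
    intro γ
    ext i j
    rfl
  have htr : ∀ γ, (Helper51K9.TI.dsum (baseRep E' ρ) sB γ).trace = (sA γ).trace := by
    intro γ
    rw [trace_dsum, hbase, b2, b1]
    change (ρ γ).trace + (lB.map fun V => f V γ).sum = (lA.map fun V => f V γ).sum
    rw [hsum, hsum, ← hrel (π γ), Rat.cast_add, Rat.cast_one, mul_add, mul_one]
  have hfin : FinImage (Helper51K9.TI.dsum (baseRep E' ρ) sB) := by
    refine FinImage.dsum ?_ a2
    obtain ⟨N, h1, h2, h3⟩ := hρ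
    exact ⟨N, h1, h2, fun γ hγ => by rw [hbase, h3 γ hγ]⟩
  obtain ⟨N, hN1, hN2, hN3, hN4⟩ := hfin.common a1
  have i2 : Fintype (Γ ⧸ N) := Fintype.ofFinite _
  have hmk : Function.Surjective (QuotientGroup.mk' N) := QuotientGroup.mk'_surjective N
  have hmem : ∀ γ, QuotientGroup.mk' N γ = 1 → γ ∈ N := fun γ hγ => by
    rwa [QuotientGroup.mk'_apply, QuotientGroup.eq_one_iff] at hγ
  obtain ⟨s₁, hs₁⟩ := exists_quotient hmk sA (fun γ hγ => hN4 γ (hmem γ hγ))
  obtain ⟨s₂, hs₂⟩ := exists_quotient hmk (Helper51K9.TI.dsum (baseRep E' ρ) sB)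
    (fun γ hγ => hN3 γ (hmem γ hγ))
  obtain ⟨X, Y, hXY, hYX, hX⟩ := Helper8K9.DG.IsoL.iso_fin s₂ s₁ (by
    intro g
    obtain ⟨γ, rfl⟩ := hmk g
    rw [hs₁, hs₂]
    exact htr γ)
  refine good_sub M E' ρ hW c1 c2 X Y hXY hYX (fun γ => ?_) ?_
  · rw [← hs₂, ← hs₁]
    exact hX _
  · have h5 := htr 1
    rw [map_one, map_one, Matrix.trace_one, Matrix.trace_one, Fintype.card_sum] at h5
    exact_mod_cast h5

end

end Pool.Agent.Helper78K9.DR
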