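import Pool.Agent.Helper78K9.DR.Core
import Pool.Agent.Helper51K9.TI.Main
import Pool.Agent.Helper51K9.TI.DeltaP
import Pool.Agent.Helper78K9.DS.Dis
import Pool.Agent.Helper78K9.DS.CycJ
import Pool.Agent.Helper78K9.DS.Big
import Pool.Agent.Helper78K9.DS.Atr

/-!
# Ratios of critical values: descent from large fields
-/

set_option autoImplicit false
set_option linter.unusedSectionVars false

namespace Pool.Agent.Helper78K9.DR

open Matrix Polynomial Filter Topology NumberField Pool.Agent.R389 Pool.Agent.H541R3.ART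
  Pool.Agent.Helper51K9.TI

section defs

variable {A : Type} [Field A] [CharZero A] {F : IntermediateField ℚ A} {E : Type} [Field E] {n : ℕ}
  (M : Motive F E n) {E' : Type} [Field E'] [Algebra E E'] {r : Type} [Fintype r] [DecidableEq r]

/-- **The hypothesis over the extension `K` of `F`**: for the motive `M₀ ⊗ ρ` over `K`, of rank
`n dim ρ`, whose L-function is the one of `M₀ ⊗ (ρ ⊗ Ind_K 1)` over `F`: the L-function exists, and
Deligne's formula over `K` (with `Δ_K` and `d_K`) holds -/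
def KnownOver (ι : A →+* ℂ) (c : A ≃ₐ[ℚ] A) (m : ℤ) (K : IntermediateField ℚ A)
    (ρ : F.fixingSubgroup →* Matrix r r E') : Prop :=
  ∀ [Fintype (F.fixingSubgroup ⧸ gal F K)] [DecidableEq (F.fixingSubgroup ⧸ gal F K)],
    HasL M.toRealizations (tens ρ (induced (gal F K) (1 : gal F K →* E'ˣ))) ∧
      RatioFormula M ι c m K (n * Fintype.card r)
        (tens ρ (induced (gal F K) (1 : gal F K →* E'ˣ)))

end defs

variable {A : Type} [Field A] [CharZero A] [IsAlgClosed A] [Algebra.IsAlgebraic ℚ A]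
  {ι : A →+* ℂ} {c : A ≃ₐ[ℚ] A} (hc : IsConj ι c) {F : IntermediateField ℚ A}
  [FiniteDimensional ℚ F] (hF : TotallyImaginary c F) {E : Type} [Field E] [NumberField E] {n : ℕ}
  (M : Motive F E n) {m : ℤ} (hm : IsCritical M m)
  {E' : Type} [Field E'] [NumberField E'] [Algebra E E'] {r : Type} [Fintype r] [DecidableEq r]
  (ρ : F.fixingSubgroup →* Matrix r r E') (hρ : FinImage ρ)

include hc hF hm hρ

theorem known_good {δ : A} (hδ : IsDelta ι c F δ) (K : IntermediateField ℚ A)
    [FiniteDimensional ℚ K] (hFK : F ≤ K) (h : KnownOver M ι c m K ρ)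
    (U : Subgroup F.fixingSubgroup) (hU : gal F K = U) [Fintype (F.fixingSubgroup ⧸ U)]
    [DecidableEq (F.fixingSubgroup ⧸ U)] :
    Good M.toRealizations ((Complex.I ^ (Module.finrank ℚ F / 2) * ι δ) ^ n *
      (gammaFactor M 1 ((m + 1 : ℤ) : ℂ) / gammaFactor M 1 (m : ℂ))) (m : ℂ) ((m + 1 : ℤ) : ℂ)
      (tens ρ (induced U (1 : U →* E'ˣ))) := by
  subst hU
  obtain ⟨h1, h2⟩ := h
  have hcard : n * Fintype.card r * IntermediateField.relfinrank F K =
      n * Fintype.card (r × (F.fixingSubgroup ⧸ gal F K)) := by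
    rw [← card_quot F K hFK, Fintype.card_prod, mul_assoc]
  rw [formula_iff delta hc hF M K hFK, hcard, formula_iff_ratio delta hc hF M hm hδ] at h2
  exact good_of _ h1 h2

/-- the descent for a finite quotient of the Galois group of `F` -/
theorem descent {G : Type} [Group G] [Finite G] (π : F.fixingSubgroup →* G)
    (hπ : Function.Surjective π) (Ω : IntermediateField ℚ A) [FiniteDimensional ℚ Ω] (hΩ : F ≤ Ω)
    (hker : gal F Ω ≤ π.ker)
    (h : ∀ V : Subgroup G, Hyper V → ∀ K : IntermediateField ℚ A, F ≤ K → K ≤ Ω →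
      gal F K = V.comap π → KnownOver M ι c m K ρ) :
    HasL M.toRealizations ρ ∧ RatioFormula M ι c m F (n * Fintype.card r) ρ := by
  obtain ⟨δ, hδ⟩ := exists_delta ι c F
  have hs : ∀ j, (M.hodge j : ℝ) < ((m : ℂ)).re := by
    intro j
    rw [Complex.intCast_re]
    exact_mod_cast (hm j).1
  have hs' : ∀ j, (M.hodge j : ℝ) < (((m + 1 : ℤ) : ℂ)).re := by
    intro j
    rw [Complex.intCast_re]
    have := (hm j).1
    exact_mod_cast this.trans (lt_add_one m)
  have hW : (Complex.I ^ (Module.finrank ℚ F / 2) * ι δ) ^ n *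
      (gammaFactor M 1 ((m + 1 : ℤ) : ℂ) / gammaFactor M 1 (m : ℂ)) ≠ 0 := by
    refine mul_ne_zero (pow_ne_zero _ (mul_ne_zero (pow_ne_zero _ Complex.I_ne_zero) ?_))
      (div_ne_zero (gamma_ne M 1 hs') (gamma_ne M 1 hs))
    exact (map_ne_zero ι).2 (delta_ne hδ)
  have key := good_descent M.toRealizations (z := (m : ℂ)) (z' := ((m + 1 : ℤ) : ℂ)) hπ hW ρ hρ (by
    intro V hV _ _
    have hle : gal F Ω ≤ V.comap π := by
      intro γ hγ
      rw [Subgroup.mem_comap, MonoidHom.mem_ker.1 (hker hγ)]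
      exact V.one_mem
    obtain ⟨K, hFK, hKΩ, hK⟩ := exists_field_of F Ω hΩ (V.comap π) hle
    have hfd : FiniteDimensional ℚ K :=
      Module.Finite.of_injective (IntermediateField.inclusion hKΩ).toLinearMap
        (IntermediateField.inclusion hKΩ).injective
    exact known_good hc hF M hm ρ hρ hδ K hFK (h V hV K hFK hKΩ hK) _ hK)
  have a2 : Algebra.IsAlgebraic E E' := by
    have : FiniteDimensional E E' := Module.Finite.of_restrictScalars_finite ℚ E E'
    exact Algebra.IsAlgebraic.of_finite E E'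
  exact ⟨key.hasL, (formula_iff_ratio delta hc hF M hm hδ ρ).2 (key.ratio M.toRealizations)⟩

/-- **(1)** the descent from the fixed fields of the hyperelementary subgroups -/
theorem galois_descent (Ω : IntermediateField ℚ A) [FiniteDimensional ℚ Ω] (hΩ : F ≤ Ω)
    [(gal F Ω).Normal]
    (h : ∀ K : IntermediateField ℚ A, F ≤ K → K ≤ Ω →
      Hyper ((gal F K).map (QuotientGroup.mk' (gal F Ω))) → KnownOver M ι c m K ρ) :
    HasL M.toRealizations ρ ∧ RatioFormula M ι c m F (n * Fintype.card r) ρ := by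
  have hfin : Finite (F.fixingSubgroup ⧸ gal F Ω) := finite_quot F Ω hΩ
  refine descent hc hF M hm ρ hρ (QuotientGroup.mk' (gal F Ω)) (QuotientGroup.mk'_surjective _) Ω hΩ
    (le_of_eq (QuotientGroup.ker_mk' _).symm) fun V hV K hFK hKΩ hK => h K hFK hKΩ ?_
  rw [hK, Subgroup.map_comap_eq_self_of_surjective (QuotientGroup.mk'_surjective _)]
  exact hV

/-- **(2)** the descent from large fields -/
theorem large_descent (N : ℕ) (F₀ : IntermediateField ℚ A) [FiniteDimensional ℚ F₀] (hF₀ : F ≤ F₀)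
    (h : ∀ (K₀ : IntermediateField ℚ A) [FiniteDimensional ℚ K₀], IsAbelianGalois ℚ K₀ →
      IsTotallyReal K₀ → N ≤ IntermediateField.relfinrank F (F ⊔ K₀) → (F ⊔ K₀) ⊓ F₀ = F →
      KnownOver M ι c m (F ⊔ K₀) ρ) :
    HasL M.toRealizations ρ ∧ RatioFormula M ι c m F (n * Fintype.card r) ρ := by
  classical
  have hG : IsGalois ℚ A := isGalois
  obtain ⟨p, hp1, hp⟩ := Nat.exists_infinite_primes (N + 3)
  obtain ⟨q, hq1, hq⟩ := Nat.exists_infinite_primes (p + 1)
  have hpos : 0 < p * q := Nat.mul_pos hp.pos hq.pos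
  obtain ⟨π, hsurj, hπ, hdis⟩ := DS.exists_disjoint DS.cycJ (p * q) hpos F₀
  have : NeZero (p * q) := ⟨hpos.ne'⟩
  have hle₀ : F₀.fixingSubgroup ≤ F.fixingSubgroup := IntermediateField.fixingSubgroup_antitone hF₀
  set π' : F.fixingSubgroup →* DS.CC (p * q) := π.comp F.fixingSubgroup.subtype with hπ'
  have hsurj' : Function.Surjective π' := by
    intro g
    obtain ⟨γ, hγ, h1⟩ := hdis g
    exact ⟨⟨γ, hle₀ hγ⟩, h1⟩
  obtain ⟨Ω₀, hΩ₀, -, hΩ1⟩ := hπ
  have hΩf : FiniteDimensional ℚ (F ⊔ Ω₀ : IntermediateField ℚ A) :=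
    IntermediateField.finiteDimensional_sup F Ω₀
  refine descent hc hF M hm ρ hρ π' hsurj' (F ⊔ Ω₀) le_sup_left ?_ fun V hV K hFK hKΩ hK => ?_
  · intro γ hγ
    rw [Subgroup.mem_subgroupOf, IntermediateField.fixingSubgroup_sup] at hγ
    exact hΩ1 γ hγ.2
  · obtain ⟨K₀, hK₀, -, hK₀V⟩ := Helper8K9.DG.cor ⊤ _ π ⟨Ω₀, hΩ₀, le_top, hΩ1⟩ V
    have hodd : Odd (Nat.card (DS.CC (p * q))) := by
      have h1 : Nat.card (DS.CC (p * q)) = (p * q) * (p * q) := by
        rw [Nat.card_prod, Nat.card_congr Multiplicative.toAdd, Nat.card_zmod]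
      rw [h1]
      have hp2 : Odd p := hp.odd_of_ne_two (by omega)
      have hq2 : Odd q := hq.odd_of_ne_two (by omega)
      exact (hp2.mul hq2).mul (hp2.mul hq2)
    obtain ⟨h1, h2, -⟩ := DS.atr (DS.CC (p * q)) π hodd hsurj V K₀ hK₀V
    have hfix : (F ⊔ K₀).fixingSubgroup = K.fixingSubgroup := by
      rw [IntermediateField.fixingSubgroup_sup, hK₀V]
      ext γ
      rw [Subgroup.mem_inf]
      constructor
      · rintro ⟨h3, h4⟩
        have h5 : (⟨γ, h3⟩ : F.fixingSubgroup) ∈ gal F K := by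
          rw [hK]
          exact h4
        exact Subgroup.mem_subgroupOf.1 h5
      · intro h3
        have h4 : γ ∈ F.fixingSubgroup := IntermediateField.fixingSubgroup_antitone hFK h3
        have h5 : (⟨γ, h4⟩ : F.fixingSubgroup) ∈ V.comap π' := by
          rw [← hK]
          exact Subgroup.mem_subgroupOf.2 h3
        exact ⟨h4, h5⟩
    have hKeq : F ⊔ K₀ = K := by
      rw [← InfiniteGalois.fixedField_fixingSubgroup (F ⊔ K₀), hfix,
        InfiniteGalois.fixedField_fixingSubgroup]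
    have hfK : FiniteDimensional ℚ K := by
      rw [← hKeq]
      exact IntermediateField.finiteDimensional_sup F K₀
    rw [← hKeq]
    intro _ _
    refine h K₀ h1 h2 ?_ ?_
    · rw [hKeq, ← index_gal F K hFK, hK, Subgroup.index_comap_of_surjective _ hsurj']
      refine le_trans ?_ (DS.big p q hp hq (by omega) V hV)
      exact le_min (by omega) (by omega)
    · rw [hKeq]
      refine le_antisymm ?_ (le_inf hFK hF₀)
      intro x hx
      obtain ⟨hx1, hx2⟩ := IntermediateField.mem_inf.1 hx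
      rw [← InfiniteGalois.fixedField_fixingSubgroup F, IntermediateField.mem_fixedField_iff]
      intro γ hγ
      obtain ⟨δ, hδ, hδ'⟩ := hdis (π γ)
      have h3 : δ⁻¹ * γ ∈ K.fixingSubgroup := by
        rw [← hfix, IntermediateField.fixingSubgroup_sup, hK₀V, Subgroup.mem_inf,
          Subgroup.mem_comap, map_mul, map_inv, hδ', inv_mul_cancel]
        exact ⟨F.fixingSubgroup.mul_mem (F.fixingSubgroup.inv_mem (hle₀ hδ)) hγ, V.one_mem⟩
      have h4 := (IntermediateField.mem_fixingSubgroup_iff K _).1 h3 x hx1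
      have h5 := (IntermediateField.mem_fixingSubgroup_iff F₀ _).1 hδ x hx2
      have h6 : δ ((δ⁻¹ * γ) x) = δ x := congrArg δ h4
      rw [← AlgEquiv.mul_apply, mul_inv_cancel_left] at h6
      rw [h6, h5]

end Pool.Agent.Helper78K9.DR
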